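import Pool.Agent.H71.CQ.Basic

/-!
# Between infinite sorts there are finitely many closed labels
-/

set_option autoImplicit false

open Set

namespace Pool.Agent.H1.CQ

open Pool.Agent.H71.CQ

theorem pf_ALF (hINV : T_INV) (hRLB : T_RLB) : T_ALF := by
  classical
  intro L _ _ N hN hP e he p q hp hq
  by_contra hinf
  have hinf' : {l | ¬ Op N l ∧ ∃ x y, x ≠ y ∧ e x x = p ∧ e y y = q ∧ e x y = l}.Infinite := hinf
  let lam : ℕ → L := fun i => (hinf'.natEmbedding _ i : L)
  have hlam : Lam N e p q lam := by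
    refine ⟨fun i j h => ?_, fun i => (hinf'.natEmbedding _ i).2⟩
    exact (hinf'.natEmbedding _).injective (Subtype.ext h)
  -- the invariant
  let rho : (ℕ → ℕ → L) → (Fin 2 → ℕ) → (ℕ × ℕ → Bool) := fun f z ij =>
    decide (∃ y, f (z 0) y = lam ij.1 ∧ f (z 1) y = lam ij.2)
  have hmeas : ∀ z, Measurable fun f => rho f z := by
    intro z
    refine measurable_pi_lambda _ fun ij => ?_
    refine measurable_to_bool ?_
    have : (fun f : ℕ → ℕ → L => rho f z ij) ⁻¹' {true} =
        ⋃ y, {f | f (z 0) y = lam ij.1} ∩ {f | f (z 1) y = lam ij.2} := by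
      ext f
      simp [rho]
    rw [this]
    refine MeasurableSet.iUnion fun y => MeasurableSet.inter ?_ ?_
    · have h1 : Measurable fun f : ℕ → ℕ → L => f (z 0) y :=
        (measurable_pi_apply y).comp (measurable_pi_apply (z 0))
      exact h1 (measurableSet_singleton _)
    · have h1 : Measurable fun f : ℕ → ℕ → L => f (z 1) y :=
        (measurable_pi_apply y).comp (measurable_pi_apply (z 1))
      exact h1 (measurableSet_singleton _)
  have hinv : ∀ (f f' : ℕ → ℕ → L) (g : ℕ ≃ ℕ), IsIso f f' g → ∀ z, rho f' (g ∘ z) = rho f z := by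
    intro f f' g hg z
    funext ij
    simp only [rho, Function.comp]
    refine decide_eq_decide.2 ⟨?_, ?_⟩
    · rintro ⟨y, h1, h2⟩
      refine ⟨g.symm y, ?_, ?_⟩
      · rw [← hg, g.apply_symm_apply]; exact h1
      · rw [← hg, g.apply_symm_apply]; exact h2
    · rintro ⟨y, h1, h2⟩
      exact ⟨g y, by rw [hg]; exact h1, by rw [hg]; exact h2⟩
  have hcount := hINV L N hN hP 2 (ℕ × ℕ → Bool) rho hmeas hinv
  obtain ⟨x, hx, x', hx', hne⟩ := hp.nontrivial
  have hne0 : {y | ∃ e z, Mem N e ∧ rho e z = y}.Nonempty := ⟨_, e, ![x, x'], he, rfl⟩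
  obtain ⟨r, hr⟩ := hcount.exists_eq_range hne0
  obtain ⟨e', he', hav⟩ := hRLB L N hN.toSep e he p q hp hq lam hlam x x' hne hx hx'
    (fun k => {ij | r k ij = true})
  have hmem : rho e' ![x, x'] ∈ range r := by
    rw [← hr]
    exact ⟨e', ![x, x'], he', rfl⟩
  obtain ⟨k, hk⟩ := hmem
  refine hav k ?_
  ext ij
  have : r k ij = rho e' ![x, x'] ij := by rw [hk]
  simp only [mem_setOf_eq, this]
  simp [rho]

end Pool.Agent.H1.CQ
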