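import Pool.Agent.H71.CQ.Basic

/-!
# Countably many labels are realised
-/

set_option autoImplicit false

open Set

namespace Pool.Agent.H1.CQ

open Pool.Agent.H71.CQ

theorem pf_RLC (hINV : T_INV) : T_RLC := by
  intro L _ _ N hN hP
  have h := hINV L N hN hP 2 L (fun e z => e (z 0) (z 1)) (fun z => by
      have h1 : Measurable fun e : ℕ → ℕ → L => e (z 0) := measurable_pi_apply (z 0)
      exact (measurable_pi_apply (z 1)).comp h1) (fun e e' g hg z => by
      show e' (g (z 0)) (g (z 1)) = e (z 0) (z 1)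
      exact hg _ _)
  refine h.mono ?_
  rintro l ⟨e, x, y, he, rfl⟩
  exact ⟨e, ![x, y], he, rfl⟩

end Pool.Agent.H1.CQ
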