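import Pool.Agent.H71.CQ.Basic

/-!
# The algebraic part and the components of a glued structure
-/

set_option autoImplicit false

open Set

namespace Pool.Agent.H1.CQ

open Pool.Agent.H71.CQ

theorem pf_WCH : T_WCH := by
  intro L N V E P c hP hPo hinf hno hch hrefl hsymm htrans
  have h1 : ∀ v, Wp N E v → v ∈ P := by
    intro v hv
    induction hv with
    | base x hf =>
      by_contra hx
      exact hinf x hx hf
    | step x y _ hc ih =>
      by_contra hy
      exact hc (hPo x ih y hy)
  have h2 : ∀ v, Wp N E v ↔ v ∈ P := fun v => ⟨h1 v, hP v⟩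
  refine ⟨h2, fun a ha b => ⟨fun h => ?_, fun h => ?_⟩⟩
  · induction h with
    | refl => exact ⟨ha, hrefl a⟩
    | tail _ hab ih =>
      rename_i x y _
      obtain ⟨hx, hy, ho⟩ := hab
      have hxP : x ∉ P := fun h => hx (hP x h)
      have hyP : y ∉ P := fun h => hy (hP y h)
      refine ⟨hyP, htrans _ _ _ ih.2 ?_⟩
      by_contra hn
      rcases ho with ho | ho
      · exact ho (hno x hxP y hyP hn)
      · exact ho (hno y hyP x hxP fun h => hn (hsymm _ _ h))
  · have hc := hch a ha b h.1 h.2
    clear h
    induction hc with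
    | refl => exact cm_refl a
    | tail _ hxy ih =>
      exact ih.tail ⟨fun h => hxy.1 (h1 _ h), fun h => hxy.2.1 (h1 _ h), hxy.2.2⟩

end Pool.Agent.H1.CQ
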